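import Mathlib
import Pool.Agent.J4.H38.DV.TDefs
import Pool.Agent.J4.H38.SR.Cnt

/-! Project BP: bounded gaps between primes and `P_2`. Definitions. -/

set_option autoImplicit false

namespace Pool.Agent.J4.H38.BP

open Finset Filter
open Pool.Agent.J4.H38.SR
open Pool.Agent.H373R2.T7 (pz Vz)

/-- the number of the residues of `S` modulo `p` -/
def eZ (S : Finset ℤ) (p : ℕ) : ℕ := (S.image (fun s => s % (p : ℤ))).card

/-- the shifts `h - z`: with `p = n + z` the form `n + h` is `p + (h - z)` -/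
def fz (T0 : Finset ℕ) (z : ℕ) : Finset ℤ := T0.image (fun h : ℕ => (h : ℤ) - z)

/-- the shifts `t` -/
def sT (T : Finset ℕ) : Finset ℤ := T.image (fun t : ℕ => (t : ℤ))

/-- the shifts `-(N + t)`, for the forms `N + t - p` -/
def sG (N : ℕ) (T : Finset ℕ) : Finset ℤ := T.image (fun t : ℕ => -((N : ℤ) + t))

/-- the majorant: all `p - z + h`, `h ∈ T0`, are rough -/
noncomputable def muB (T0 : Finset ℕ) (z y0 p : ℕ) : ℝ := if z < p then rT T0 y0 (p - z) else 0

/-- the local densities of the shifts `S` relative to the shifts `S0`, at the primes in `(w, y]` -/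
noncomputable def PB (S0 S : Finset ℤ) (w y : ℕ) : ℝ :=
  ∏ p ∈ (pz y).filter (fun p => w < p), (1 - ((eZ (S0 ∪ S) p : ℝ) - eZ S0 p) / ((p : ℝ) - eZ S0 p))

/-- the density of one shift relative to `m` others -/
noncomputable def GB (m w y : ℕ) : ℝ := ∏ p ∈ (pz y).filter (fun p => w < p), (1 - 1 / ((p : ℝ) - m))

end Pool.Agent.J4.H38.BP
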