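import Mathlib
import Pool.Agent.J4.H38.BP.Defs
import Pool.Agent.J4.H46.BP.B1
import Pool.Agent.J4.H40.BP.B2
import Pool.Agent.J4.H14.BP.B3
import Pool.Agent.J4.H45.BP.B5
import Pool.Agent.J4.H60.BP.B6
import Pool.Agent.J4.H61.BP.B7

/-! Project BP: the pieces together. -/

set_option autoImplicit false

namespace Pool.Agent.J4.H38.BP

open Finset Filter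
open Pool.Agent.Y822
open Pool.Agent.J4.H38.SR
open Pool.Agent.J4.H38.SR2
open Pool.Agent.J4.H38.DV
open Pool.Agent.H373R2.T7 (pz Vz mem_pz)

theorem GB_bd (m : ℕ) : ∃ w₀ : ℕ, 2 ≤ w₀ ∧ ∀ w y : ℕ, w₀ ≤ w → w ≤ y →
    1 / 2 * Vz y ≤ GB m w y ∧ GB m w y ≤ Vz y / Vz w ∧ GB m w y ≤ 1 := Pool.Agent.J4.H45.BP.GB_bd m

theorem VTsumT (k : ℕ) (T0 : Finset ℕ) (z : ℕ) (hz : z ∈ T0) (hadm : ∀ p : ℕ, p.Prime → fT T0 p < p) :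
    ∃ w₀ : ℕ, 2 ≤ w₀ ∧ ∀ w : ℕ, w₀ ≤ w → ∃ Cv : ℝ, 0 < Cv ∧ ∀ κ : ℝ, 0 < κ → κ ≤ 1 → ∀ᶠ N : ℕ in atTop,
    ∀ y : ℕ, (y : ℝ) < (N : ℝ) ^ κ → (N : ℝ) ^ κ ≤ y + 1 → ∀ H : ℕ, Real.log N ≤ H → H ≤ N →
    ∀ A ⊆ AW w 0 H, ∀ j ≤ k, ∑ S ∈ A.powersetCard j, VT y (T0 ∪ S.image (fun t => z + t)) ≤
      Cv * (2 / κ) ^ (j + T0.card) * ((H : ℝ) ^ j / Real.log N ^ (j + T0.card)) :=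
  VTsumT_of Pool.Agent.J4.H46.BP.bavT Pool.Agent.J4.H40.BP.bav2 Pool.Agent.J4.H45.BP.GB_bd
    Pool.Agent.J4.H45.BP.VT_bd k T0 z hz hadm

theorem VTsumG (k : ℕ) (T0 : Finset ℕ) (z : ℕ) (hz : z ∈ T0) (hadm : ∀ p : ℕ, p.Prime → fT T0 p < p) :
    ∃ w₀ : ℕ, 2 ≤ w₀ ∧ ∀ w : ℕ, w₀ ≤ w → ∃ Cv : ℝ, 0 < Cv ∧ ∀ κ : ℝ, 0 < κ → κ ≤ 1 → ∀ᶠ N : ℕ in atTop,
    ∀ y : ℕ, (y : ℝ) < (N : ℝ) ^ κ → (N : ℝ) ^ κ ≤ y + 1 → ∀ H : ℕ, Real.log N ≤ H → H ≤ N →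
    ∀ b : ℕ, (∀ p ∈ pz y, p ∣ N + b) → (∀ h ∈ T0, h ≤ b) →
    ∀ A ⊆ AW w N H, ∀ j ≤ k, ∑ S ∈ A.powersetCard j, VT y (T0.image (fun h => b + z - h) ∪ S) ≤
      Cv * (2 / κ) ^ (j + T0.card) * ((H : ℝ) ^ j / Real.log N ^ (j + T0.card)) :=
  VTsumG_of Pool.Agent.J4.H46.BP.bavG Pool.Agent.J4.H40.BP.bav2 Pool.Agent.J4.H45.BP.GB_bd
    Pool.Agent.J4.H45.BP.VT_bd k T0 z hz hadm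

theorem baseBT (k : ℕ) (T0 : Finset ℕ) (z : ℕ) (hz : z ∈ T0) (hadm : ∀ p : ℕ, p.Prime → fT T0 p < p)
    (δ ε κ1 : ℝ) (hδ : 0 < δ) (hε : 0 < ε) (hκ1 : 0 < κ1) : ∃ w₀ : ℕ, 2 ≤ w₀ ∧ ∀ w : ℕ, w₀ ≤ w → ∃ κ₀ : ℝ, 0 < κ₀ ∧
    ∀ κ : ℝ, 0 < κ → κ ≤ κ₀ →
    ∃ Λ : ℝ, 0 < Λ ∧ ∀ᶠ N : ℕ in atTop, ∀ y : ℕ, (y : ℝ) < (N : ℝ) ^ κ → (N : ℝ) ^ κ ≤ y + 1 →
    ∀ H : ℕ, Λ * Real.log N ≤ H → H ≤ N → ∀ P ⊆ Icc 1 N,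
    (∀ p ∈ P, z < p ∧ ∀ h ∈ T0, ∀ q : ℕ, q.Prime → (q : ℝ) ≤ (N : ℝ) ^ κ1 → ¬ q ∣ p - z + h) →
    δ * (N / Real.log N ^ T0.card) ≤ P.card →
    ∀ Bad : Finset (Finset ℕ), (∀ D ∈ Bad, D ∈ (AW w 0 H).powersetCard k ∧
      ∑ p ∈ P, ∏ t ∈ D, ro y (p + t) < 1 / 2 * (P.card * GB T0.card w y ^ k)) →
    (Bad.card : ℝ) ≤ ε * ((AW w 0 H).card : ℝ) ^ k :=
  Pool.Agent.J4.H60.BP.baseBT' Pool.Agent.J4.H46.BP.bavT Pool.Agent.J4.H40.BP.bav2 Pool.Agent.J4.H14.BP.bcntT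
    Pool.Agent.J4.H45.BP.GB_bd Pool.Agent.J4.H45.BP.VT_bd k T0 z hz hadm δ ε κ1 hδ hε hκ1

theorem baseBG (k : ℕ) (T0 : Finset ℕ) (z : ℕ) (hz : z ∈ T0) (hadm : ∀ p : ℕ, p.Prime → fT T0 p < p)
    (δ ε κ1 : ℝ) (hδ : 0 < δ) (hε : 0 < ε) (hκ1 : 0 < κ1) : ∃ w₀ : ℕ, 2 ≤ w₀ ∧ ∀ w : ℕ, w₀ ≤ w → ∃ κ₀ : ℝ, 0 < κ₀ ∧
    ∀ κ : ℝ, 0 < κ → κ ≤ κ₀ →
    ∃ Λ : ℝ, 0 < Λ ∧ ∀ᶠ N : ℕ in atTop, ∀ y : ℕ, (y : ℝ) < (N : ℝ) ^ κ → (N : ℝ) ^ κ ≤ y + 1 →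
    ∀ H : ℕ, Λ * Real.log N ≤ H → H ≤ N → ∀ P ⊆ Icc 1 N,
    (∀ p ∈ P, z < p ∧ ∀ h ∈ T0, ∀ q : ℕ, q.Prime → (q : ℝ) ≤ (N : ℝ) ^ κ1 → ¬ q ∣ p - z + h) →
    δ * (N / Real.log N ^ T0.card) ≤ P.card →
    ∀ Bad : Finset (Finset ℕ), (∀ D ∈ Bad, D ∈ (AW w N H).powersetCard k ∧
      ∑ p ∈ P, ∏ t ∈ D, ro y (N - p + t) < 1 / 2 * (P.card * GB T0.card w y ^ k)) →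
    (Bad.card : ℝ) ≤ ε * ((AW w N H).card : ℝ) ^ k :=
  Pool.Agent.J4.H60.BP.baseBG' Pool.Agent.J4.H46.BP.bavG Pool.Agent.J4.H40.BP.bav2 Pool.Agent.J4.H14.BP.bcntG
    Pool.Agent.J4.H45.BP.GB_bd Pool.Agent.J4.H45.BP.VT_bd k T0 z hz hadm δ ε κ1 hδ hε hκ1

end Pool.Agent.J4.H38.BP
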