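import Mathlib
import Pool.Agent.J4.H60.BP.B8

/-! Project BP: consecutive primes, and the choice of the constants for the finite family of the admissible sets. -/

set_option autoImplicit false

namespace Pool.Agent.J4.H38.BP

open Finset Filter
open Pool.Agent.Y822
open Pool.Agent.J4.H38.SR
open Pool.Agent.H373R2.T7 (pz Vz mem_pz)

/-- the distance to the next prime -/
noncomputable def gap (p : ℕ) : ℕ := by
  classical
  exact if h : ∃ r : ℕ, 0 < r ∧ (p + r).Prime then Nat.find h else 0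

lemma gap_spec {p g : ℕ} (hg : 0 < g) (hp : (p + g).Prime) :
    0 < gap p ∧ gap p ≤ g ∧ (p + gap p).Prime ∧ ∀ r, p < r → r < p + gap p → ¬ r.Prime := by
  classical
  have h : ∃ r : ℕ, 0 < r ∧ (p + r).Prime := ⟨g, hg, hp⟩
  have e : gap p = Nat.find h := by
    unfold gap
    rw [dif_pos h]
  rw [e]
  refine ⟨(Nat.find_spec h).1, Nat.find_min' h ⟨hg, hp⟩, (Nat.find_spec h).2, fun r h1 h2 hr => ?_⟩
  have h3 : r - p < Nat.find h := by omega
  refine Nat.find_min h h3 ⟨by omega, ?_⟩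
  rwa [show p + (r - p) = r by omega]

/-- **consecutive primes** -/
theorem cons45 : ∃ (κ1 δ : ℝ) (F : Finset (Finset ℕ)), 0 < κ1 ∧ 0 < δ ∧
    (∀ T0 ∈ F, T0.card = 45 ∧ 212 ∈ T0 ∧ ∀ p : ℕ, p.Prime → fT T0 p < p) ∧
    ∀ᶠ N : ℕ in atTop, ∃ T0 ∈ F, ∃ g : ℕ, 2 ≤ g ∧ g ≤ 212 ∧ Even g ∧ ∃ P ⊆ Icc 1 N,
      (∀ p ∈ P, 212 < p ∧ p + g ≤ N ∧ p.Prime ∧ (p + g).Prime ∧ (∀ r, p < r → r < p + g → ¬ r.Prime) ∧
        ∀ h ∈ T0, ∀ q : ℕ, q.Prime → (q : ℝ) ≤ (N : ℝ) ^ κ1 → ¬ q ∣ p - 212 + h) ∧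
      δ * (N / Real.log N ^ 45) ≤ P.card := by
  classical
  obtain ⟨κ1, δ, F, hκ1, hδ, hF, hN⟩ := Pool.Agent.J4.H60.BP.pairs45
  refine ⟨κ1, δ / 212, F, hκ1, by positivity, fun T0 hT => ⟨(hF T0 hT).1, (hF T0 hT).2.1, (hF T0 hT).2.2.2⟩, ?_⟩
  filter_upwards [hN, eventually_ge_atTop 2] with N hN hN2
  obtain ⟨T0, hT0, g, hg2, hg, -, P, hP, hPp, hPc⟩ := hN
  have hgap : ∀ p ∈ P, 0 < gap p ∧ gap p ≤ g ∧ (p + gap p).Prime ∧ ∀ r, p < r → r < p + gap p → ¬ r.Prime :=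
    fun p hp => gap_spec (by omega) (hPp p hp).2.2.2.1
  -- the pigeonhole principle
  have hmaps : ∀ p ∈ P, gap p ∈ Icc 1 212 := fun p hp => by
    have := hgap p hp
    rw [mem_Icc]
    omega
  obtain ⟨g', hg', hcard⟩ : ∃ g' ∈ Icc 1 212, (P.card : ℝ) / 212 ≤ ((P.filter (fun p => gap p = g')).card : ℝ) := by
    by_contra hc
    push Not at hc
    have h1 : (P.card : ℝ) = ∑ g' ∈ Icc 1 212, ((P.filter (fun p => gap p = g')).card : ℝ) := by
      exact_mod_cast card_eq_sum_card_fiberwise hmaps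
    have h2 : ∑ g' ∈ Icc 1 212, ((P.filter (fun p => gap p = g')).card : ℝ) < ∑ _g' ∈ Icc 1 212, (P.card : ℝ) / 212 :=
      sum_lt_sum_of_nonempty ⟨1, by rw [mem_Icc]; omega⟩ hc
    rw [sum_const, Nat.card_Icc, nsmul_eq_mul] at h2
    push_cast at h2
    linarith
  have hL : 0 < Real.log N := Real.log_pos (by exact_mod_cast (by omega : 1 < N))
  have hN0 : (0 : ℝ) < N := by exact_mod_cast (by omega : 0 < N)
  have hc2 : δ / 212 * (N / Real.log N ^ 45) ≤ ((P.filter (fun p => gap p = g')).card : ℝ) := by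
    refine le_trans ?_ hcard
    calc δ / 212 * (N / Real.log N ^ 45) = δ * (N / Real.log N ^ 45) / 212 := by ring
      _ ≤ _ := div_le_div_of_nonneg_right hPc (by norm_num)
  have hpos : 0 < (P.filter (fun p => gap p = g')).card := by
    have : (0 : ℝ) < ((P.filter (fun p => gap p = g')).card : ℝ) := lt_of_lt_of_le (by positivity) hc2
    exact_mod_cast this
  obtain ⟨p0, hp0⟩ := card_pos.1 hpos
  rw [mem_filter] at hp0
  have hev : Even g' := by
    have h1 := hgap p0 hp0.1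
    have h2 := hPp p0 hp0.1
    rw [hp0.2] at h1
    have o1 := h2.2.2.1.eq_two_or_odd
    have o2 := h1.2.2.1.eq_two_or_odd
    rw [Nat.even_iff]
    omega
  rw [mem_Icc] at hg'
  refine ⟨T0, hT0, g', ?_, hg'.2, hev, P.filter (fun p => gap p = g'), (filter_subset _ _).trans hP, fun p hp => ?_, hc2⟩
  · obtain ⟨a, ha⟩ := hev
    omega
  · rw [mem_filter] at hp
    have h1 := hgap p hp.1
    have h2 := hPp p hp.1
    rw [hp.2] at h1
    exact ⟨h2.1, by omega, h2.2.2.1, h1.2.2.1, h1.2.2.2, h2.2.2.2.2⟩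

end Pool.Agent.J4.H38.BP
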