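import Mathlib
import Pool.Agent.J4.H38.BP.Fin
import Pool.Agent.J4.H38.DV.TFin

/-! Project BP: the main theorem for the shifts `p + d`. -/

set_option autoImplicit false

namespace Pool.Agent.J4.H38.BP

open Finset Filter
open Pool.Agent.Y822
open Pool.Agent.Y822.Low (step_lower')
open Pool.Agent.J4.H38.SR
open Pool.Agent.J4.H38.SR2
open Pool.Agent.J4.H38.SR3
open Pool.Agent.J4.H38.DV
open Pool.Agent.H387R2.Uni (nuT Adm locT CT CT_nonneg)
open Pool.Agent.H373R2.T7 (pz Vz mem_pz rhoA PerA lam_fund)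

open Classical in
/-- the indicator function of `P`, shifted -/
noncomputable def eS (P : Finset ℕ) (z n : ℕ) : ℝ := if n + z ∈ P then 1 else 0

lemma eS_bd (P : Finset ℕ) (z n : ℕ) : 0 ≤ eS P z n ∧ eS P z n ≤ 1 := by
  unfold eS; split_ifs <;> norm_num

lemma eS_le {T0 : Finset ℕ} {z : ℕ} {κ1 κ : ℝ} {N : ℕ} {P : Finset ℕ} (hR : RoP T0 z κ1 N P) (hN : 1 ≤ N)
    {y : ℕ} (hy : (y : ℝ) ≤ (N : ℝ) ^ κ) (hκ : κ ≤ κ1) (n : ℕ) : eS P z n ≤ rT T0 y n := by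
  unfold eS
  by_cases h : n + z ∈ P
  · rw [if_pos h]
    apply le_of_eq
    unfold rT
    symm
    refine prod_eq_one fun t ht => ?_
    unfold ro
    rw [if_pos]
    intro q hq hqy hqd
    obtain ⟨_, h3⟩ := hR _ h
    refine h3 t ht q hq ?_ ?_
    · have h5 : (q : ℝ) ≤ y := by exact_mod_cast hqy
      refine h5.trans (hy.trans (Real.rpow_le_rpow_of_exponent_le ?_ hκ))
      exact_mod_cast hN
    · rwa [Nat.add_sub_cancel]
  · rw [if_neg h]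
    exact rT_nonneg _ _ _

lemma sum_shift {P : Finset ℕ} {N z : ℕ} (hP : P ⊆ Icc 1 N) (hz : ∀ p ∈ P, z < p) (F : ℕ → ℝ) :
    ∑ n ∈ Icc 1 N, eS P z n * F (n + z) = ∑ p ∈ P, F p := by
  classical
  have h1 : ∑ n ∈ Icc 1 N, eS P z n * F (n + z) =
      ∑ n ∈ (Icc 1 N).filter (fun n => n + z ∈ P), F (n + z) := by
    rw [sum_filter]
    refine sum_congr rfl fun n _ => ?_
    unfold eS
    split_ifs <;> simp
  rw [h1]
  refine sum_bij' (fun n _ => n + z) (fun p _ => p - z) ?_ ?_ ?_ ?_ ?_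
  · intro n hn
    exact (mem_filter.1 hn).2
  · intro p hp
    have h2 := mem_Icc.1 (hP hp)
    have h3 := hz p hp
    rw [mem_filter, mem_Icc]
    refine ⟨⟨by omega, by omega⟩, ?_⟩
    rwa [Nat.sub_add_cancel h3.le]
  · intro n _
    exact Nat.add_sub_cancel _ _
  · intro p hp
    exact Nat.sub_add_cancel (hz p hp).le
  · intro n _
    rfl

lemma prod_shift (D : Finset ℕ) (z n : ℕ) (g : ℕ → ℝ) :
    ∏ s ∈ D.map (addLeftEmbedding z), g (n + s) = ∏ t ∈ D, g (n + z + t) := by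
  rw [prod_map]
  refine prod_congr rfl fun t _ => ?_
  rw [addLeftEmbedding_apply, add_assoc]

lemma base_eqS {P : Finset ℕ} {N z : ℕ} (hP : P ⊆ Icc 1 N) (hz : ∀ p ∈ P, z < p) (y : ℕ) (D : Finset ℕ) :
    ∑ n ∈ Icc 1 N, WH (eS P z) (g2 N) (ro y) (D.map (addLeftEmbedding z)) ∅ n = ∑ p ∈ P, ∏ t ∈ D, ro y (p + t) := by
  rw [← sum_shift hP hz]
  refine sum_congr rfl fun n _ => ?_
  unfold WH
  rw [prod_empty, one_mul, sdiff_empty, prod_shift]

lemma WH_fullS {P : Finset ℕ} {N z : ℕ} (hP : P ⊆ Icc 1 N) (hz : ∀ p ∈ P, z < p) (y : ℕ) (D : Finset ℕ) :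
    ∑ n ∈ Icc 1 N, WH (eS P z) (g2 N) (ro y) (D.map (addLeftEmbedding z)) (D.map (addLeftEmbedding z)) n ≤
      piT' P D N := by
  classical
  have h1 : ∑ n ∈ Icc 1 N, WH (eS P z) (g2 N) (ro y) (D.map (addLeftEmbedding z)) (D.map (addLeftEmbedding z)) n =
      ∑ p ∈ P, ∏ t ∈ D, g2 N (p + t) := by
    rw [← sum_shift hP hz]
    refine sum_congr rfl fun n _ => ?_
    unfold WH
    rw [sdiff_self, bot_eq_empty, prod_empty, mul_one, prod_shift]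
  rw [h1]
  have h2 : ∑ p ∈ P, ∏ t ∈ D, g2 N (p + t) ≤
      ∑ p ∈ P, (if ∀ d ∈ D, (p + d).primeFactorsList.length ≤ 2 ∧
        ∀ q ∈ (p + d).primeFactors, (N : ℝ) ^ (1 / 7 : ℝ) ≤ q then (1 : ℝ) else 0) := by
    refine sum_le_sum fun p _ => ?_
    split_ifs with h
    · exact prod_le_one (fun s _ => (g2_bd _ _).1) fun s _ => (g2_bd _ _).2
    · apply le_of_eq
      by_contra hne
      apply h
      intro d hd
      have h5 := (prod_ne_zero_iff.1 hne) d hd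
      unfold g2 at h5
      by_contra hc
      exact h5 (if_neg fun h6 => hc h6.2)
  refine h2.trans ?_
  rw [← sum_filter, sum_const, nsmul_eq_mul, mul_one]
  unfold piT'
  exact le_refl _

/-- **the main theorem relative to a fixed admissible set**, for the shifts `p + d` -/
theorem relT : ∃ c : ℝ, 0 < c ∧ ∀ (T0 : Finset ℕ) (z : ℕ), z ∈ T0 → (∀ p : ℕ, p.Prime → fT T0 p < p) →
    ∀ (k : ℕ) (δ ε κ1 : ℝ), 0 < δ → 0 < ε → 0 < κ1 → ∃ w₀ : ℕ, 2 ≤ w₀ ∧ ∀ w : ℕ, w₀ ≤ w → ∃ Λ : ℝ, 0 < Λ ∧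
    ∀ᶠ N : ℕ in atTop, ∀ H : ℕ, Λ * Real.log N ≤ H → 2 * H ≤ N →
    ∀ P ⊆ (Icc 1 N).filter Nat.Prime, RoP T0 z κ1 N P → δ * (N / Real.log N ^ T0.card) ≤ P.card →
    ∀ Bad : Finset (Finset ℕ), (∀ D ∈ Bad, D ∈ (AW w 0 H).powersetCard (k + 1) ∧
      (piT' P D N : ℝ) < c ^ (k + 1) * (P.card / Real.log N ^ (k + 1))) →
    (Bad.card : ℝ) ≤ ε * ((AW w 0 H).card : ℝ) ^ (k + 1) := by
  classical
  obtain ⟨c₀', hc₀', STEP⟩ := stepR
  obtain ⟨cz, hcz, VZ⟩ := Vz_sharp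
  obtain ⟨c₀, hc₀d⟩ : ∃ c₀ : ℝ, c₀ = min c₀' 1 := ⟨_, rfl⟩
  have hc₀ : 0 < c₀ := by rw [hc₀d]; exact lt_min hc₀' one_pos
  have hc₀1 : c₀ ≤ 1 := by rw [hc₀d]; exact min_le_right _ _
  have hc₀2 : c₀ ≤ c₀' := by rw [hc₀d]; exact min_le_left _ _
  obtain ⟨cs, hcs⟩ : ∃ cs : ℝ, cs = min (c₀ * cz / 2) 1 := ⟨_, rfl⟩
  have hcs0 : 0 < cs := by rw [hcs]; exact lt_min (by positivity) one_pos
  have hcs1 : cs ≤ 1 := by rw [hcs]; exact min_le_right _ _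
  have hcs2 : cs ≤ c₀ * cz / 2 := by rw [hcs]; exact min_le_left _ _
  refine ⟨cs / 16, by positivity, fun T0 z hz hadm k δ₀ ε κ1 hδ₀ hε hκ1 => ?_⟩
  obtain ⟨m, hm⟩ : ∃ m : ℕ, m = T0.card := ⟨_, rfl⟩
  obtain ⟨wa, hwa, hbase⟩ := baseBT (k + 1) T0 z hz hadm δ₀ (ε / 3) κ1 hδ₀ (by linarith) hκ1
  obtain ⟨wb, hwb, hVTs⟩ := VTsumT (k + 2) T0 z hz hadm
  obtain ⟨wc, hwc, hGBb⟩ := GB_bd m
  obtain ⟨Δ, hΔ⟩ : ∃ Δ : ℕ, ∀ h ∈ T0, h ≤ Δ := ⟨T0.sup id, fun h hh => le_sup (f := id) hh⟩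
  obtain ⟨wd, hwd, hwdp⟩ := Nat.exists_infinite_primes (Δ + 1)
  rw [← hm] at hbase hVTs ⊢
  refine ⟨max (max wa wb) (max wc wd), hwc.trans ((le_max_left _ _).trans (le_max_right _ _)), fun w hw' => ?_⟩
  have hw : 2 ≤ w := hwc.trans (((le_max_left _ _).trans (le_max_right _ _)).trans hw')
  obtain ⟨κ₀, hκ₀, hbase⟩ := hbase w (((le_max_left _ _).trans (le_max_left _ _)).trans hw')
  obtain ⟨Cv, hCv0, hVTs⟩ := hVTs w (((le_max_right _ _).trans (le_max_left _ _)).trans hw')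
  obtain ⟨W, hW⟩ : ∃ W : ℕ, W = ∏ p ∈ pz w, p := ⟨_, rfl⟩
  have hW1 : 1 ≤ W := by
    rw [hW]
    exact prod_pos fun p hp => (mem_pz.1 hp).2.pos
  have hWr : (1 : ℝ) ≤ W := by exact_mod_cast hW1
  obtain ⟨ε', hε'⟩ : ∃ ε' : ℝ, ε' = ε / (3 * (2 * W) ^ (k + 1)) := ⟨_, rfl⟩
  have hε'0 : 0 < ε' := by rw [hε']; positivity
  obtain ⟨δ, hδ⟩ : ∃ δ : ℝ, δ = cs ^ (k + 1) * δ₀ / (128 * (k + 1)) := ⟨_, rfl⟩
  have hδ0 : 0 < δ := by rw [hδ]; positivity
  obtain ⟨κ, Λ₁, hκ, hκκ', hκ25, hΛ₁, hfew⟩ := few_R k m (δ := δ)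
    (ε' := ε') (κm := min κ₀ κ1) (Cv := Cv) hδ0 hε'0 (lt_min hκ₀ hκ1) hCv0
  have hκκ : κ ≤ κ₀ := hκκ'.trans (min_le_left _ _)
  have hκκ1 : κ ≤ κ1 := hκκ'.trans (min_le_right _ _)
  have hκ1' : κ ≤ 1 := hκ25.trans (by norm_num)
  obtain ⟨Λ₂, hΛ₂, hbase⟩ := hbase κ hκ hκκ
  obtain ⟨N₁, STEP⟩ := STEP κ hκ hκ25
  obtain ⟨M, hM⟩ : ∃ M : ℕ, M = w + 2 * (k + 2) ^ 2 + 5 := ⟨_, rfl⟩
  refine ⟨max (max Λ₁ Λ₂) (2 * W), lt_max_of_lt_right (by positivity), ?_⟩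
  obtain ⟨τ, hτ⟩ : ∃ τ : ℝ, τ = 1 / 32 * cs ^ (k + 1) * δ₀ := ⟨_, rfl⟩
  have hτ0 : 0 < τ := by rw [hτ]; positivity
  filter_upwards [hbase, hfew, ev_logN (eventually_ge_atTop (max 3 ((M + 2) * (2 / κ)))),
    ev_small (k + m + 1) (by norm_num : (0 : ℝ) < 1 / 7) 12 hδ0,
    eventually_ge_atTop (max N₁ 3),
    ev_small (k + m + 1) (by norm_num : (0 : ℝ) < 1) 1 hτ0,
    hVTs κ hκ hκ1', eventually_ge_atTop (max (4 * z) 16)]
    with N hbase hfew hL1' hs8 hN hs1 hVTs hNz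
  intro H hH1' hHN2 P hP hRo hPc Bad hBad
  have hHN : H ≤ N := by omega
  have hNz4 : 4 * z ≤ N := (le_max_left _ _).trans hNz
  have hN16 : 16 ≤ N := (le_max_right _ _).trans hNz
  have hNN₁ : N₁ ≤ N := (le_max_left _ _).trans hN
  have hN3 : 3 ≤ N := (le_max_right _ _).trans hN
  have hN2 : 2 ≤ N := by omega
  set L := Real.log N with hLd
  have hL3 : 3 ≤ L := (le_max_left _ _).trans hL1'
  have hL1 : 1 ≤ L := by linarith
  have hLM : (M + 2) * (2 / κ) ≤ L := (le_max_right _ _).trans hL1'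
  have hL0 : 0 < L := by linarith
  have hH1 : Λ₁ * L ≤ H := (mul_le_mul_of_nonneg_right ((le_max_left _ _).trans (le_max_left _ _)) hL0.le).trans hH1'
  have hH2 : Λ₂ * L ≤ H := (mul_le_mul_of_nonneg_right ((le_max_right _ _).trans (le_max_left _ _)) hL0.le).trans hH1'
  have hHW : 2 * W * L ≤ H := (mul_le_mul_of_nonneg_right (le_max_right _ _) hL0.le).trans hH1'
  have hHL : L ≤ H := by nlinarith
  have hH3 : 3 ≤ H := by exact_mod_cast hL3.trans hHL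
  have hN0 : (0 : ℝ) < N := by positivity
  have hNe : (N : ℝ) = Real.exp L := by rw [hLd, Real.exp_log hN0]
  have hrp : ∀ s : ℝ, (N : ℝ) ^ s = Real.exp (s * L) := by
    intro s
    rw [Real.rpow_def_of_pos hN0, ← hLd, mul_comm]
  -- the number of the shifts
  obtain ⟨q, hq⟩ : ∃ q : ℝ, q = ((AW w 0 H).card : ℝ) := ⟨_, rfl⟩
  have hq0 : 0 ≤ q := by rw [hq]; exact Nat.cast_nonneg _
  have hqH := AW_card w 0 H
  rw [← hq, ← hW] at hqH
  have hq1 : 1 ≤ q := by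
    by_contra hc
    push Not at hc
    have h1 : q = 0 := by
      rw [hq] at hc ⊢
      have : (AW w 0 H).card < 1 := by exact_mod_cast hc
      have h2 : (AW w 0 H).card = 0 := by omega
      rw [h2, Nat.cast_zero]
    rw [h1] at hqH
    nlinarith
  have hHq : (H : ℝ) ≤ 2 * W * q := by nlinarith [hqH.2]
  have hε'H : ε' * (H : ℝ) ^ (k + 1) ≤ ε / 3 * q ^ (k + 1) := by
    have h1 : (H : ℝ) ^ (k + 1) ≤ (2 * W) ^ (k + 1) * q ^ (k + 1) := by
      rw [← mul_pow]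
      exact pow_le_pow_left₀ (by positivity) hHq _
    calc ε' * (H : ℝ) ^ (k + 1) ≤ ε' * ((2 * W) ^ (k + 1) * q ^ (k + 1)) := mul_le_mul_of_nonneg_left h1 hε'0.le
      _ = ε / 3 * q ^ (k + 1) := by rw [hε']; field_simp
  -- the sifting limit
  obtain ⟨y, hy⟩ : ∃ y : ℕ, y + 1 = ⌈(N : ℝ) ^ κ⌉₊ := by
    have : 0 < ⌈(N : ℝ) ^ κ⌉₊ := Nat.ceil_pos.2 (by positivity)
    exact ⟨⌈(N : ℝ) ^ κ⌉₊ - 1, by omega⟩
  have hya : (y : ℝ) < (N : ℝ) ^ κ := Nat.lt_ceil.1 (by omega)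
  have hyb : (N : ℝ) ^ κ ≤ y + 1 := by
    have := Nat.le_ceil ((N : ℝ) ^ κ)
    rw [← hy] at this
    exact_mod_cast this
  have hya' : (y : ℝ) ≤ Real.exp (κ * L) := by rw [← hrp]; exact hya.le
  have hyb' : Real.exp (κ * L) ≤ y + 1 := by rw [← hrp]; exact hyb
  have hML : (M : ℝ) + 2 ≤ κ / 2 * L := by
    have h1 : (M : ℝ) + 2 = κ / 2 * ((M + 2) * (2 / κ)) := by field_simp
    rw [h1]
    exact mul_le_mul_of_nonneg_left hLM (by positivity)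
  obtain ⟨_, _, y3, y4, _, y6⟩ := y_core (M := M) hκ (by omega : 1 ≤ N) hML hya' hyb'
  have hyw : w ≤ y := by omega
  have hy3 : 3 ≤ y := by omega
  have hy0 : (0 : ℝ) < y := by positivity
  -- the factor of one step
  obtain ⟨u, hu⟩ : ∃ u : ℝ, u = c₀ * κ := ⟨_, rfl⟩
  have hu0 : 0 ≤ u := by rw [hu]; positivity
  have hu1 : u ≤ 1 := by rw [hu]; exact mul_le_one₀ hc₀1 hκ.le (by linarith)
  have hVz0 : 0 ≤ Vz y := (Vz_pos' y).le
  have hly : 0 < Real.log y := Real.log_pos (by exact_mod_cast (by omega : 1 < y))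
  have hlyu : Real.log y ≤ κ * L := by
    rw [← Real.log_exp (κ * L)]
    exact Real.log_le_log hy0 hya'
  have hwc' : wc ≤ w := ((le_max_left _ _).trans (le_max_right _ _)).trans hw'
  have hwd' : wd ≤ w := ((le_max_right _ _).trans (le_max_right _ _)).trans hw'
  have huG : cs / L ≤ u * GB m w y := by
    have t5 : cz / (κ * L) ≤ Vz y := (div_le_div_of_nonneg_left hcz.le hly hlyu).trans (VZ y hy3)
    have t6 := (hGBb w y hwc' hyw).1
    calc cs / L ≤ c₀ * cz / 2 / L := div_le_div_of_nonneg_right hcs2 hL0.le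
      _ = u * (1 / 2 * (cz / (κ * L))) := by rw [hu]; field_simp
      _ ≤ u * GB m w y := mul_le_mul_of_nonneg_left (by linarith) hu0
  -- the error of one step
  obtain ⟨X, hX⟩ : ∃ X : ℝ, X = N / L ^ (k + m + 1) := ⟨_, rfl⟩
  have hX0 : 0 < X := by rw [hX]; positivity
  have h78 : 12 * (N : ℝ) ^ (6 / 7 : ℝ) ≤ δ * X := by
    rw [hrp, hX]
    have e : (6 / 7 : ℝ) * L = (1 - 1 / 7) * L := by ring
    rw [e]
    exact hs8
  have hx0 : 0 ≤ 4 * δ * X := by positivity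
  -- the set of the shifts
  have hPI : P ⊆ Icc 1 N := hP.trans (filter_subset _ _)
  have hPz : ∀ p ∈ P, z < p := fun p hp => (hRo p hp).1
  have hAWm : ∀ d, d ∈ AW w 0 H → (1 ≤ d ∧ d ≤ H) ∧ Even d ∧ Δ < d := by
    intro d hd
    unfold AW at hd
    rw [mem_filter, mem_Icc, zero_add] at hd
    refine ⟨hd.1, ?_, ?_⟩
    · have h2 : 2 ∣ ∏ p ∈ pz w, p := dvd_prod_of_mem _ (mem_pz.2 ⟨hw, Nat.prime_two⟩)
      exact even_iff_two_dvd.2 (h2.trans hd.2)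
    · have h2 : wd ∣ ∏ p ∈ pz w, p := dvd_prod_of_mem _ (mem_pz.2 ⟨hwd', hwdp⟩)
      have h3 := Nat.le_of_dvd hd.1.1 (h2.trans hd.2)
      omega
  have hLo : ∀ d ≤ H, ((z + d : ℕ) : ℝ) ≤ N - (N : ℝ) ^ (1 / 2 : ℝ) := by
    intro d hd
    have h1 : (N : ℝ) ^ (1 / 2 : ℝ) ≤ N / 4 := by
      have h2 : (16 : ℝ) ≤ N := by exact_mod_cast hN16
      rw [← Real.sqrt_eq_rpow, Real.sqrt_le_left (by positivity)]
      nlinarith
    have h3 : 4 * ((z + d : ℕ) : ℝ) ≤ 3 * N := by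
      have : 4 * (z + d) ≤ 3 * N := by omega
      exact_mod_cast this
    linarith
  obtain ⟨A, hA⟩ : ∃ A : Finset ℕ, A = AW w 0 H := ⟨_, rfl⟩
  have hAm : ∀ d, d ∈ A → (1 ≤ d ∧ d ≤ H) ∧ Even d ∧ Δ < d := by
    intro d hd
    rw [hA] at hd
    exact hAWm d hd
  have hAsub : A ⊆ Icc 1 H := fun d hd => mem_Icc.2 (hAm d hd).1
  -- the two kinds of exceptional sets
  obtain ⟨B1, hB1⟩ : ∃ B1, B1 = Bad.filter (fun D => ∑ p ∈ P, ∏ t ∈ D, ro y (p + t) <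
    1 / 2 * (P.card * GB m w y ^ (k + 1))) := ⟨_, rfl⟩
  obtain ⟨B3, hB3⟩ : ∃ B3, B3 = Bad.filter (fun D =>
    ¬ (∑ p ∈ P, ∏ t ∈ D, ro y (p + t) < 1 / 2 * (P.card * GB m w y ^ (k + 1)))) := ⟨_, rfl⟩
  have hcov : Bad.card ≤ B1.card + B3.card := by
    rw [hB1, hB3, card_filter_add_card_filter_not]
  have hc1 : (B1.card : ℝ) ≤ ε / 3 * q ^ (k + 1) := by
    rw [hq]
    refine hbase y hya hyb H hH2 hHN P hPI hRo hPc B1 fun D hD => ?_
    rw [hB1, mem_filter] at hD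
    exact ⟨(hBad D hD.1).1, hD.2⟩
  suffices hc3 : (B3.card : ℝ) ≤ ε' * (H : ℝ) ^ (k + 1) by
    have h4 : (Bad.card : ℝ) ≤ B1.card + B3.card := by exact_mod_cast hcov
    have h5 : 0 ≤ ε / 3 * q ^ (k + 1) := by positivity
    rw [← hq]
    linarith
  have hcard3 : (B3.map (mapEmbedding (addLeftEmbedding z)).toEmbedding).card = B3.card := card_map _
  rw [← hcard3]
  refine hfew y hya hyb (A.map (addLeftEmbedding z)) T0 ∅ hm.symm ⟨z, hz⟩ (by rw [card_empty]; exact Nat.zero_le _)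
    ?_ ?_ ?_ (eS P z) (eS_bd P z)
    (fun n _ _ => eS_le hRo (by omega) hya.le hκκ1 n) (g2 N) ?_ H hH1 ?_ ?_ _ ?_
  · rw [disjoint_left]
    intro a ha haA
    obtain ⟨t, ht, rfl⟩ := mem_map.1 haA
    rw [addLeftEmbedding_apply] at ha
    have h1 := (hAm _ ht).2.2
    have h2 := hΔ _ ha
    omega
  · intro a ha
    obtain ⟨t, ht, rfl⟩ := mem_map.1 ha
    rw [addLeftEmbedding_apply]
    exact hLo t (hAm t ht).1.2
  · have hev : ∀ a ∈ A.map (addLeftEmbedding z) ∪ T0, Even (a + z) := by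
      intro a ha
      rcases mem_union.1 ha with h | h
      · obtain ⟨t, ht, rfl⟩ := mem_map.1 h
        rw [addLeftEmbedding_apply]
        have h1 := (hAm t ht).2.1
        rw [Nat.even_iff] at h1 ⊢
        omega
      · exact adm_even hadm h hz
    intro a ha t ht
    have h1 := hev a ha
    have h2 := hev t ht
    rw [Nat.even_iff] at h1 h2 ⊢
    omega
  · intro n
    refine ⟨(g2_bd N n).1, g2_le_ro ?_ n⟩
    refine hya.trans_le (Real.rpow_le_rpow_of_exponent_le (by exact_mod_cast (by omega : 1 ≤ N)) ?_)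
    linarith
  · rw [card_map]
    refine (card_le_card hAsub).trans ?_
    rw [Nat.card_Icc, Nat.add_sub_cancel]
  · intro j hj
    have h1 := hVTs y hya hyb H hHL hHN A (by rw [hA]) j hj
    rw [powersetCard_map, sum_map]
    refine le_trans (le_of_eq (sum_congr rfl fun S _ => ?_)) h1
    congr 2
    rw [RelEmbedding.coe_toEmbedding, mapEmbedding_apply, map_eq_image]
    rfl
  · intro D' hD'
    obtain ⟨D, hD, rfl⟩ := mem_map.1 hD'
    rw [RelEmbedding.coe_toEmbedding, mapEmbedding_apply]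
    rw [hB3, mem_filter] at hD
    obtain ⟨hDB, hnb⟩ := hD
    obtain ⟨b1, b3⟩ := hBad D hDB
    rw [mem_powersetCard] at b1
    refine ⟨?_, fun hg => ?_⟩
    · rw [mem_powersetCard, card_map]
      refine ⟨?_, b1.2⟩
      rw [map_subset_map, hA]
      exact b1.1
    obtain ⟨D', hD'd⟩ : ∃ D', D' = D.map (addLeftEmbedding z) := ⟨_, rfl⟩
    have hDN : ∀ h ∈ D', h ≤ N := by
      intro h hh
      rw [hD'd] at hh
      obtain ⟨t, ht, rfl⟩ := mem_map.1 hh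
      rw [addLeftEmbedding_apply]
      have := (hAWm t (b1.1 ht)).1.2
      omega
    rw [← hD'd] at hg
    -- one step
    have hZ : ∀ t ∈ D', ∀ S1 ⊆ D'.erase t,
        u * ∑ n ∈ Icc 1 N, WH (eS P z) (g2 N) (ro y) (D'.erase t) S1 n * ro y (n + t) - 4 * δ * X ≤
          ∑ n ∈ Icc 1 N, WH (eS P z) (g2 N) (ro y) (D'.erase t) S1 n * g2 N (n + t) := by
      intro t ht S1 hS1
      set f := WH (eS P z) (g2 N) (ro y) (D'.erase t) S1 with hf
      have hf01 : ∀ n, 0 ≤ f n ∧ f n ≤ 1 := WH_bd (eS_bd P z) (g2_bd N) (ro_bd y) _ _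
      have hgood := hg t ht S1 hS1
      rw [← hf, ← hX] at hgood
      have hs := STEP N hNN₁ y hyb f (fun n => (hf01 n).1) (fun n => (hf01 n).2) t (hDN t ht)
      have hW0 : 0 ≤ ∑ n ∈ Icc 1 N, f n * ro y (n + t) :=
        sum_nonneg fun n _ => mul_nonneg (hf01 n).1 (ro_nonneg _ _)
      have h5 : u * ∑ n ∈ Icc 1 N, f n * ro y (n + t) ≤
          c₀' * κ * ∑ n ∈ Icc 1 N, f n * ro y (n + t) := by
        rw [hu]
        exact mul_le_mul_of_nonneg_right (mul_le_mul_of_nonneg_right hc₀2 hκ.le) hW0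
      linarith
    have hlower := step_lower' (H := D') hx0 hu0 hu1 hZ D' (subset_refl _)
    rw [hD'd, card_map, b1.2] at hlower
    have hrefl := base_eqS hPI hPz y D
    have hfull := WH_fullS hPI hPz y D
    have hfin := calcB (k := k) (m := m) (cs := cs) (L := L) (n := N) (u := u) (G := GB m w y) (Pc := P.card)
      (W := ∑ n ∈ Icc 1 N, WH (eS P z) (g2 N) (ro y) (D.map (addLeftEmbedding z)) ∅ n) (x := 4 * δ * X) (P := piT' P D N) (δ := δ₀)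
      hcs0 hcs1 hL1 hu0 hu1 huG hPc (Nat.cast_nonneg _) ?_ ?_ ?_
      (by push_cast at hlower; linarith)
    · linarith
    · rw [hrefl]
      have h1 := not_lt.1 hnb
      have h2 : 0 ≤ GB m w y := le_trans (by positivity) (hGBb w y hwc' hyw).1
      have h3 : 0 ≤ (P.card : ℝ) * GB m w y ^ (k + 1) := mul_nonneg (Nat.cast_nonneg _) (pow_nonneg h2 _)
      linarith
    · rw [← hτ]
      rw [sub_self, zero_mul, Real.exp_zero, mul_one] at hs1
      exact hs1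
    · rw [← hX, hδ]
      apply le_of_eq
      field_simp
      norm_num

end Pool.Agent.J4.H38.BP
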