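import Mathlib
import Pool.Agent.J4.H38.BP.Cons
import Pool.Agent.J4.H38.BP.Fin
import Pool.Agent.J4.H38.BP.TFin

/-! Project BP: the main theorems for consecutive primes. -/

set_option autoImplicit false

namespace Pool.Agent.J4.H38.BP

open Finset Filter
open Pool.Agent.Y822
open Pool.Agent.J4.H38.SR
open Pool.Agent.J4.H38.DV
open Pool.Agent.H373R2.T7 (pz Vz mem_pz)

/-- finitely many choices of the constants -/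
lemma fam {ι : Type*} (F : Finset ι) (R : ι → ℕ → ℕ → ℕ → Prop) (h : ∀ i ∈ F, ∃ w₀ : ℕ, 2 ≤ w₀ ∧ ∀ w : ℕ, w₀ ≤ w →
    ∃ Λ : ℝ, 0 < Λ ∧ ∀ᶠ N : ℕ in atTop, ∀ H : ℕ, Λ * Real.log N ≤ H → R i w N H) :
    ∃ w : ℕ, 2 ≤ w ∧ ∃ Λ : ℝ, 0 < Λ ∧ ∀ᶠ N : ℕ in atTop, ∀ H : ℕ, Λ * Real.log N ≤ H → ∀ i ∈ F, R i w N H := by
  classical
  have h' : ∀ i : ι, ∃ w₀ : ℕ, i ∈ F → (2 ≤ w₀ ∧ ∀ w : ℕ, w₀ ≤ w →
    ∃ Λ : ℝ, 0 < Λ ∧ ∀ᶠ N : ℕ in atTop, ∀ H : ℕ, Λ * Real.log N ≤ H → R i w N H) := by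
    intro i
    by_cases hi : i ∈ F
    · obtain ⟨w₀, hw₀⟩ := h i hi
      exact ⟨w₀, fun _ => hw₀⟩
    · exact ⟨0, fun hc => absurd hc hi⟩
  choose w₀ hw₀ using h'
  obtain ⟨w, hw⟩ : ∃ w : ℕ, w = F.sup w₀ + 2 := ⟨_, rfl⟩
  have hwi : ∀ i ∈ F, w₀ i ≤ w := fun i hi => by
    have := le_sup (f := w₀) hi
    omega
  have h'' : ∀ i : ι, ∃ Λ : ℝ, 0 < Λ ∧ (i ∈ F → ∀ᶠ N : ℕ in atTop, ∀ H : ℕ, Λ * Real.log N ≤ H → R i w N H) := by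
    intro i
    by_cases hi : i ∈ F
    · obtain ⟨Λ, hΛ, hΛ'⟩ := (hw₀ i hi).2 w (hwi i hi)
      exact ⟨Λ, hΛ, fun _ => hΛ'⟩
    · exact ⟨1, one_pos, fun hc => absurd hc hi⟩
  choose Λ hΛ hΛ' using h''
  refine ⟨w, by omega, 1 + ∑ i ∈ F, Λ i, ?_, ?_⟩
  · have := sum_nonneg (s := F) fun i _ => (hΛ i).le
    linarith
  have hall : ∀ᶠ N : ℕ in atTop, ∀ i ∈ F, ∀ H : ℕ, Λ i * Real.log N ≤ H → R i w N H := by
    rw [eventually_all_finset]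
    exact fun i hi => hΛ' i hi
  filter_upwards [hall, eventually_ge_atTop 1] with N hN hN1
  intro H hH i hi
  refine hN i hi H (le_trans ?_ hH)
  refine mul_le_mul_of_nonneg_right ?_ (Real.log_nonneg (by exact_mod_cast hN1))
  have := single_le_sum (f := Λ) (fun i _ => (hΛ i).le) hi
  linarith

/-- the constants -/
lemma c_le {c δ N L Pc : ℝ} {k : ℕ} (hc : 0 < c) (hδ : 0 < δ) (hN : 0 ≤ N) (hL : 0 < L)
    (hP : δ * (N / L ^ 45) ≤ Pc) :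
    (c * min δ 1) ^ (k + 1) * (N / L ^ (45 + (k + 1))) ≤ c ^ (k + 1) * (Pc / L ^ (k + 1)) := by
  have h0 : 0 < min δ 1 := lt_min hδ one_pos
  have h1 : (min δ 1) ^ (k + 1) ≤ δ := by
    calc (min δ 1) ^ (k + 1) ≤ (min δ 1) ^ 1 :=
          pow_le_pow_of_le_one h0.le (min_le_right _ _) (by omega)
      _ = min δ 1 := pow_one _
      _ ≤ δ := min_le_left _ _
  calc (c * min δ 1) ^ (k + 1) * (N / L ^ (45 + (k + 1)))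
      = c ^ (k + 1) * ((min δ 1) ^ (k + 1) * (N / L ^ 45) / L ^ (k + 1)) := by
        rw [mul_pow, pow_add L 45 (k + 1)]
        field_simp
    _ ≤ c ^ (k + 1) * (Pc / L ^ (k + 1)) := by
        refine mul_le_mul_of_nonneg_left (div_le_div_of_nonneg_right ?_ (by positivity)) (by positivity)
        exact (mul_le_mul_of_nonneg_right h1 (by positivity)).trans hP

/-- **consecutive primes and differences** -/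
theorem bpG : ∃ c : ℝ, 0 < c ∧ ∀ (k : ℕ) (ε : ℝ), 0 < ε → ∃ w : ℕ, 2 ≤ w ∧ ∃ Λ : ℝ, 0 < Λ ∧
    ∀ᶠ N : ℕ in atTop, ∃ g : ℕ, 2 ≤ g ∧ g ≤ 212 ∧ Even g ∧ ∃ P ⊆ (Icc 1 N).filter Nat.Prime,
      (∀ p ∈ P, p + g ≤ N ∧ (p + g).Prime ∧ ∀ r, p < r → r < p + g → ¬ r.Prime) ∧
      ∀ H : ℕ, Λ * Real.log N ≤ H → H ≤ N →
      ∀ Bad : Finset (Finset ℕ), (∀ D ∈ Bad, D ∈ (AW w N H).powersetCard (k + 1) ∧
        (piD P D N : ℝ) < c ^ (k + 1) * (N / Real.log N ^ (45 + (k + 1)))) →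
      (Bad.card : ℝ) ≤ ε * ((AW w N H).card : ℝ) ^ (k + 1) := by
  classical
  obtain ⟨κ1, δ, F, hκ1, hδ, hF, hpairs⟩ := cons45
  obtain ⟨c, hc, hrel⟩ := relG
  refine ⟨c * min δ 1, mul_pos hc (lt_min hδ one_pos), fun k ε hε => ?_⟩
  obtain ⟨w, hw, Λ, hΛ, h⟩ := fam F (fun T0 w N H => H ≤ N →
    ∀ P ⊆ (Icc 1 N).filter Nat.Prime, RoP T0 212 κ1 N P → δ * (N / Real.log N ^ T0.card) ≤ P.card →
    ∀ Bad : Finset (Finset ℕ), (∀ D ∈ Bad, D ∈ (AW w N H).powersetCard (k + 1) ∧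
      (piD P D N : ℝ) < c ^ (k + 1) * (P.card / Real.log N ^ (k + 1))) →
    (Bad.card : ℝ) ≤ ε * ((AW w N H).card : ℝ) ^ (k + 1))
    fun T0 hT0 => hrel T0 212 (hF T0 hT0).2.1 (hF T0 hT0).2.2 k δ ε κ1 hδ hε hκ1
  refine ⟨w, hw, Λ, hΛ, ?_⟩
  filter_upwards [h, hpairs, eventually_ge_atTop 2] with N h hp hN2
  obtain ⟨T0, hT0, g, hg2, hg, hev, P, hP, hPp, hPc⟩ := hp
  have hL : 0 < Real.log N := Real.log_pos (by exact_mod_cast (by omega : 1 < N))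
  refine ⟨g, hg2, hg, hev, P, fun p hp => mem_filter.2 ⟨hP hp, (hPp p hp).2.2.1⟩,
    fun p hp => ⟨(hPp p hp).2.1, (hPp p hp).2.2.2.1, (hPp p hp).2.2.2.2.1⟩, fun H hH1 hH2 Bad hBad => ?_⟩
  refine h H hH1 T0 hT0 hH2 P (fun p hp => mem_filter.2 ⟨hP hp, (hPp p hp).2.2.1⟩)
    (fun p hp => ⟨(hPp p hp).1, (hPp p hp).2.2.2.2.2⟩) (by rw [(hF T0 hT0).1]; exact hPc) Bad fun D hD => ?_
  obtain ⟨b1, b2⟩ := hBad D hD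
  exact ⟨b1, b2.trans_le (c_le hc hδ (Nat.cast_nonneg _) hL hPc)⟩

/-- **consecutive primes and shifts** -/
theorem bpT : ∃ c : ℝ, 0 < c ∧ ∀ (k : ℕ) (ε : ℝ), 0 < ε → ∃ w : ℕ, 2 ≤ w ∧ ∃ Λ : ℝ, 0 < Λ ∧
    ∀ᶠ N : ℕ in atTop, ∃ g : ℕ, 2 ≤ g ∧ g ≤ 212 ∧ Even g ∧ ∃ P ⊆ (Icc 1 N).filter Nat.Prime,
      (∀ p ∈ P, p + g ≤ N ∧ (p + g).Prime ∧ ∀ r, p < r → r < p + g → ¬ r.Prime) ∧
      ∀ H : ℕ, Λ * Real.log N ≤ H → 2 * H ≤ N →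
      ∀ Bad : Finset (Finset ℕ), (∀ D ∈ Bad, D ∈ (AW w 0 H).powersetCard (k + 1) ∧
        (piT' P D N : ℝ) < c ^ (k + 1) * (N / Real.log N ^ (45 + (k + 1)))) →
      (Bad.card : ℝ) ≤ ε * ((AW w 0 H).card : ℝ) ^ (k + 1) := by
  classical
  obtain ⟨κ1, δ, F, hκ1, hδ, hF, hpairs⟩ := cons45
  obtain ⟨c, hc, hrel⟩ := relT
  refine ⟨c * min δ 1, mul_pos hc (lt_min hδ one_pos), fun k ε hε => ?_⟩
  obtain ⟨w, hw, Λ, hΛ, h⟩ := fam F (fun T0 w N H => 2 * H ≤ N →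
    ∀ P ⊆ (Icc 1 N).filter Nat.Prime, RoP T0 212 κ1 N P → δ * (N / Real.log N ^ T0.card) ≤ P.card →
    ∀ Bad : Finset (Finset ℕ), (∀ D ∈ Bad, D ∈ (AW w 0 H).powersetCard (k + 1) ∧
      (piT' P D N : ℝ) < c ^ (k + 1) * (P.card / Real.log N ^ (k + 1))) →
    (Bad.card : ℝ) ≤ ε * ((AW w 0 H).card : ℝ) ^ (k + 1))
    fun T0 hT0 => hrel T0 212 (hF T0 hT0).2.1 (hF T0 hT0).2.2 k δ ε κ1 hδ hε hκ1
  refine ⟨w, hw, Λ, hΛ, ?_⟩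
  filter_upwards [h, hpairs, eventually_ge_atTop 2] with N h hp hN2
  obtain ⟨T0, hT0, g, hg2, hg, hev, P, hP, hPp, hPc⟩ := hp
  have hL : 0 < Real.log N := Real.log_pos (by exact_mod_cast (by omega : 1 < N))
  refine ⟨g, hg2, hg, hev, P, fun p hp => mem_filter.2 ⟨hP hp, (hPp p hp).2.2.1⟩,
    fun p hp => ⟨(hPp p hp).2.1, (hPp p hp).2.2.2.1, (hPp p hp).2.2.2.2.1⟩, fun H hH1 hH2 Bad hBad => ?_⟩
  refine h H hH1 T0 hT0 hH2 P (fun p hp => mem_filter.2 ⟨hP hp, (hPp p hp).2.2.1⟩)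
    (fun p hp => ⟨(hPp p hp).1, (hPp p hp).2.2.2.2.2⟩) (by rw [(hF T0 hT0).1]; exact hPc) Bad fun D hD => ?_
  obtain ⟨b1, b2⟩ := hBad D hD
  exact ⟨b1, b2.trans_le (c_le hc hδ (Nat.cast_nonneg _) hL hPc)⟩

end Pool.Agent.J4.H38.BP
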