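import Mathlib
import Pool.Agent.J4.H38.BP.TFinI
import Pool.Agent.J4.H38.BP.Main

/-! Project BP: almost primes in very short intervals starting at the points of a sparse sifted set. -/

set_option autoImplicit false

namespace Pool.Agent.J4.H38.BP

open Finset Filter
open Pool.Agent.Y822
open Pool.Agent.J4.H38.SR
open Pool.Agent.J4.H38.DV
open Pool.Agent.H373R2.T7 (pz Vz mem_pz)

open Classical in
/-- the number of the integers in `(n, n + H]` with at most two prime factors, all of them at least `N ^ (1/7)` -/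
noncomputable def cP2 (N n H : ℕ) : ℕ :=
  ((Ioc n (n + H)).filter (fun m : ℕ => m.primeFactorsList.length ≤ 2 ∧
    ∀ q ∈ m.primeFactors, (N : ℝ) ^ (1 / 7 : ℝ) ≤ (q : ℝ))).card

/-- double counting -/
lemma sum_piT_le (B A : Finset ℕ) (N H : ℕ) (hA : A ⊆ Icc 1 H) :
    ∑ d ∈ A, piT' B {d} N ≤ ∑ n ∈ B, cP2 N n H := by
  classical
  have h1 : ∑ d ∈ A, piT' B {d} N = ∑ n ∈ B, (A.filter (fun d : ℕ => (n + d).primeFactorsList.length ≤ 2 ∧
      ∀ q ∈ (n + d).primeFactors, (N : ℝ) ^ (1 / 7 : ℝ) ≤ (q : ℝ))).card := by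
    unfold piT'
    simp only [mem_singleton, forall_eq]
    simp only [card_filter]
    rw [sum_comm]
  rw [h1]
  refine sum_le_sum fun n _ => ?_
  unfold cP2
  refine card_le_card_of_injOn (fun d => n + d) (fun d hd => ?_) fun a _ b _ h => by simpa using h
  rw [mem_coe, mem_filter] at hd
  rw [mem_coe, mem_filter, mem_Ioc]
  have h2 := mem_Icc.1 (hA hd.1)
  exact ⟨⟨Nat.lt_add_of_pos_right h2.1, Nat.add_le_add_left h2.2 n⟩, hd.2⟩

/-- few points with few almost primes -/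
theorem pts : ∃ c : ℝ, 0 < c ∧ ∀ (T0 : Finset ℕ) (z : ℕ), z ∈ T0 → (∀ p : ℕ, p.Prime → fT T0 p < p) →
    ∀ (δ κ1 : ℝ), 0 < δ → 0 < κ1 → ∃ w₀ : ℕ, 2 ≤ w₀ ∧ ∀ w : ℕ, w₀ ≤ w → ∃ Λ : ℝ, 0 < Λ ∧
    ∀ᶠ N : ℕ in atTop, ∀ H : ℕ, Λ * Real.log N ≤ H → 2 * H ≤ N →
    ∀ B ⊆ Icc 1 N, RoP T0 z κ1 N B → δ * (N / Real.log N ^ T0.card) ≤ B.card →
    ¬ ∀ n ∈ B, (cP2 N n H : ℝ) < c / (∏ p ∈ pz w, p : ℕ) * (H / Real.log N) := by
  classical
  obtain ⟨c, hc, hrel⟩ := relTI
  refine ⟨c / 8, by positivity, fun T0 z hz hadm δ κ1 hδ hκ1 => ?_⟩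
  obtain ⟨w₀, hw₀, h⟩ := hrel T0 z hz hadm 0 δ (1 / 2) κ1 hδ (by norm_num) hκ1
  refine ⟨w₀, hw₀, fun w hw => ?_⟩
  obtain ⟨Λ, hΛ, h⟩ := h w hw
  obtain ⟨W, hW⟩ : ∃ W : ℕ, W = ∏ p ∈ pz w, p := ⟨_, rfl⟩
  have hW1 : 1 ≤ W := by
    rw [hW]
    exact prod_pos fun p hp => (mem_pz.1 hp).2.pos
  have hWr : (1 : ℝ) ≤ W := by exact_mod_cast hW1
  rw [← hW]
  refine ⟨max Λ (2 * W), lt_max_of_lt_left hΛ, ?_⟩
  filter_upwards [h, eventually_ge_atTop 3] with N h hN3
  intro H hH hHN B hB hRo hBc hbad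
  have hL1 : 1 ≤ Real.log N := by
    rw [Real.le_log_iff_exp_le (by positivity)]
    have : (3 : ℝ) ≤ N := by exact_mod_cast hN3
    linarith [Real.exp_one_lt_d9]
  have hL0 : 0 < Real.log N := by linarith
  have hHΛ : Λ * Real.log N ≤ H := (mul_le_mul_of_nonneg_right (le_max_left _ _) hL0.le).trans hH
  have hHW : 2 * (W : ℝ) ≤ H := by
    have h1 : 2 * (W : ℝ) * Real.log N ≤ H := (mul_le_mul_of_nonneg_right (le_max_right _ _) hL0.le).trans hH
    nlinarith
  have hN0 : (0 : ℝ) < N := by exact_mod_cast (by omega : 0 < N)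
  have hBpos : (0 : ℝ) < B.card := lt_of_lt_of_le (by positivity) hBc
  have hBne : B.Nonempty := by
    rw [← card_pos]
    exact_mod_cast hBpos
  obtain ⟨A, hA⟩ : ∃ A : Finset ℕ, A = AW w 0 H := ⟨_, rfl⟩
  have hAH : A ⊆ Icc 1 H := by
    rw [hA]
    unfold AW
    exact filter_subset _ _
  have hAc := AW_card w 0 H
  rw [← hA, ← hW] at hAc
  have hH0 : (0 : ℝ) < H := by linarith
  have hAlow : (H : ℝ) / (2 * W) ≤ A.card := by
    have h1 := hAc.2
    rw [div_le_iff₀ (by positivity)]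
    nlinarith
  -- the bad shifts
  obtain ⟨A1, hA1⟩ : ∃ A1 : Finset ℕ, A1 = A.filter (fun d => (piT' B {d} N : ℝ) < c * (B.card / Real.log N)) := ⟨_, rfl⟩
  have hbd := h H hHΛ hHN B hB hRo hBc (A1.image (fun d => ({d} : Finset ℕ))) fun D hD => by
    obtain ⟨d, hd, rfl⟩ := mem_image.1 hD
    rw [hA1, mem_filter] at hd
    refine ⟨?_, ?_⟩
    · rw [mem_powersetCard, singleton_subset_iff, card_singleton, ← hA]
      exact ⟨hd.1, rfl⟩
    · rw [zero_add, pow_one, pow_one]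
      exact hd.2
  rw [card_image_of_injective _ (fun a b h => singleton_injective h), zero_add, pow_one, ← hA] at hbd
  -- the good shifts
  have hsum : c * (B.card / Real.log N) * (1 / 2 * A.card) ≤ ((∑ d ∈ A, piT' B {d} N : ℕ) : ℝ) := by
    push_cast
    calc c * (B.card / Real.log N) * (1 / 2 * A.card)
        ≤ ∑ _d ∈ A \ A1, c * (B.card / Real.log N) := by
          rw [sum_const, nsmul_eq_mul, mul_comm]
          refine mul_le_mul_of_nonneg_right ?_ (by positivity)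
          have h1 : A.card ≤ (A \ A1).card + A1.card := by
            have := le_card_sdiff A1 A
            omega
          have h2 : (A.card : ℝ) ≤ (A \ A1).card + A1.card := by exact_mod_cast h1
          linarith
      _ ≤ ∑ d ∈ A \ A1, (piT' B {d} N : ℝ) := by
          refine sum_le_sum fun d hd => ?_
          rw [Finset.mem_sdiff] at hd
          by_contra hc1
          exact hd.2 (by rw [hA1, mem_filter]; exact ⟨hd.1, not_le.1 hc1⟩)
      _ ≤ ∑ d ∈ A, (piT' B {d} N : ℝ) :=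
          sum_le_sum_of_subset_of_nonneg sdiff_subset fun _ _ _ => Nat.cast_nonneg _
  have hle : ((∑ d ∈ A, piT' B {d} N : ℕ) : ℝ) ≤ ∑ n ∈ B, (cP2 N n H : ℝ) := by
    exact_mod_cast sum_piT_le B A N H hAH
  have hlt : ∑ n ∈ B, (cP2 N n H : ℝ) < ∑ _n ∈ B, c / 8 / W * (H / Real.log N) := sum_lt_sum_of_nonempty hBne hbad
  rw [sum_const, nsmul_eq_mul] at hlt
  have hfin : (B.card : ℝ) * (c / 8 / W * (H / Real.log N)) ≤ c * (B.card / Real.log N) * (1 / 2 * A.card) := by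
    calc (B.card : ℝ) * (c / 8 / W * (H / Real.log N)) = c * (B.card / Real.log N) * (1 / 4 * (H / (2 * W))) := by
          field_simp
          ring
      _ ≤ c * (B.card / Real.log N) * (1 / 2 * A.card) := by
          refine mul_le_mul_of_nonneg_left ?_ (by positivity)
          have : (0 : ℝ) ≤ A.card := Nat.cast_nonneg _
          linarith
  linarith

end Pool.Agent.J4.H38.BP
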