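import Mathlib
import Pool.Agent.J4.H38.BP.Pts
import Pool.Agent.J4.H38.GD.TFin

/-! Project BP: almost primes in very short intervals starting at primes, with an absolute constant. -/

set_option autoImplicit false

namespace Pool.Agent.J4.H38.BP

open Finset Filter
open Pool.Agent.Y822
open Pool.Agent.J4.H38.SR
open Pool.Agent.J4.H38.DV
open Pool.Agent.J4.H38.GD
open Pool.Agent.H373R2.T7 (pz Vz mem_pz)

/-- the shifts which are prime to `W` -/
lemma sum_cmpT {B : Finset ℕ} {w H : ℕ} {b : ℝ} (hAB : ∀ n : ℕ, b ≤ (AB w n H).card) :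
    (B.card : ℝ) * b ≤ ((∑ d ∈ Icc 1 H, cmpT w B {d} : ℕ) : ℝ) := by
  classical
  have h1 : ∑ d ∈ Icc 1 H, cmpT w B {d} = ∑ n ∈ B, (AB w n H).card := by
    unfold cmpT AB
    simp only [mem_singleton, forall_eq, card_filter]
    rw [sum_comm]
    refine sum_congr rfl fun n _ => sum_congr rfl fun d _ => ?_
    congr 1
    apply propext
    unfold Ro
    constructor
    · intro h p hp
      rw [add_comm]
      exact h p (mem_pz.1 hp).2 (mem_pz.1 hp).1
    · intro h p hp hpw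
      rw [add_comm]
      exact h p (mem_pz.2 ⟨hpw, hp⟩)
  rw [h1]
  push_cast
  calc (B.card : ℝ) * b = ∑ _n ∈ B, b := by rw [sum_const, nsmul_eq_mul]
    _ ≤ _ := sum_le_sum fun n _ => hAB n

/-- few primes with few almost primes, absolute constant -/
theorem ptsP : ∃ c : ℝ, 0 < c ∧ ∀ δ : ℝ, 0 < δ → ∃ Λ : ℝ, 0 < Λ ∧
    ∀ᶠ N : ℕ in atTop, ∀ H : ℕ, Λ * Real.log N ≤ H → H ≤ N →
    ∀ B ⊆ (Icc 1 N).filter Nat.Prime, δ * (N / Real.log N) ≤ B.card →
    ¬ ∀ n ∈ B, (cP2 N n H : ℝ) < c * (H / Real.log N) := by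
  classical
  obtain ⟨c, hc, hany⟩ := anyT
  refine ⟨c / 4, by positivity, fun δ hδ => ?_⟩
  obtain ⟨ε, hε⟩ : ∃ ε : ℝ, ε = min (1 / 8) (δ / 8) := ⟨_, rfl⟩
  have hε0 : 0 < ε := by rw [hε]; exact lt_min (by norm_num) (by positivity)
  have hε1 : ε ≤ 1 / 8 := by rw [hε]; exact min_le_left _ _
  have hε2 : ε ≤ δ / 8 := by rw [hε]; exact min_le_right _ _
  obtain ⟨w, hw, Λ, hΛ, h⟩ := hany 0 ε hε0
  obtain ⟨H₀, hAB⟩ := AB_card w
  have hv : 0 < Vz w := Vz_pos' w
  refine ⟨max Λ (max H₀ 1), lt_max_of_lt_left hΛ, ?_⟩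
  filter_upwards [h, eventually_ge_atTop 3] with N h hN3
  intro H hH hHN B hB hBc hbad
  have hL1 : 1 ≤ Real.log N := by
    rw [Real.le_log_iff_exp_le (by positivity)]
    have : (3 : ℝ) ≤ N := by exact_mod_cast hN3
    linarith [Real.exp_one_lt_d9]
  have hL0 : 0 < Real.log N := by linarith
  have hHΛ : Λ * Real.log N ≤ H := (mul_le_mul_of_nonneg_right (le_max_left _ _) hL0.le).trans hH
  have hm : max (H₀ : ℝ) 1 ≤ H := by
    have h1 : max (H₀ : ℝ) 1 * Real.log N ≤ H := (mul_le_mul_of_nonneg_right (le_max_right _ _) hL0.le).trans hH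
    have h2 : (0 : ℝ) < max (H₀ : ℝ) 1 := lt_max_of_lt_right one_pos
    nlinarith
  have hHH : H₀ ≤ H := by exact_mod_cast (le_max_left (H₀ : ℝ) 1).trans hm
  have hH0 : (0 : ℝ) < H := lt_of_lt_of_le (lt_max_of_lt_right one_pos) hm
  have hN0 : (0 : ℝ) < N := by exact_mod_cast (by omega : 0 < N)
  have hBpos : (0 : ℝ) < B.card := lt_of_lt_of_le (by positivity) hBc
  have hBne : B.Nonempty := by
    rw [← card_pos]
    exact_mod_cast hBpos
  obtain ⟨A, hA⟩ : ∃ A : Finset ℕ, A = Icc 1 H := ⟨_, rfl⟩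
  obtain ⟨A1, hA1⟩ : ∃ A1 : Finset ℕ, A1 = A.filter (fun d => (piT' B {d} N : ℝ) <
    c * ((1 / Vz w * cmpT w B {d} - ε * (N / Real.log N)) / Real.log N)) := ⟨_, rfl⟩
  have hbd := h H hHΛ hHN B hB (A1.image (fun d => ({d} : Finset ℕ))) fun D hD => by
    obtain ⟨d, hd, rfl⟩ := mem_image.1 hD
    rw [hA1, mem_filter] at hd
    refine ⟨?_, ?_⟩
    · rw [mem_powersetCard, singleton_subset_iff, card_singleton, ← hA]
      exact ⟨hd.1, rfl⟩
    · rw [zero_add, pow_one, pow_one, pow_one]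
      exact hd.2
  rw [card_image_of_injective _ (fun a b h => singleton_injective h), zero_add, pow_one] at hbd
  -- the shifts prime to `W`
  have hc1 : (B.card : ℝ) * (1 / 2 * Vz w * H) ≤ ((∑ d ∈ A, cmpT w B {d} : ℕ) : ℝ) := by
    rw [hA]
    exact sum_cmpT fun n => (hAB H n hHH).1
  have hcl : ∀ d, (cmpT w B {d} : ℝ) ≤ B.card := by
    intro d
    unfold cmpT
    exact_mod_cast card_filter_le _ _
  have hc2 : ((∑ d ∈ A, cmpT w B {d} : ℕ) : ℝ) ≤ ∑ d ∈ A \ A1, (cmpT w B {d} : ℝ) + ε * (Vz w * H) * B.card := by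
    push_cast
    have h1 : A1 ⊆ A := by rw [hA1]; exact filter_subset _ _
    rw [← sum_sdiff h1]
    have h2 : ∑ d ∈ A1, (cmpT w B {d} : ℝ) ≤ ∑ _d ∈ A1, (B.card : ℝ) := sum_le_sum fun d _ => hcl d
    rw [sum_const, nsmul_eq_mul] at h2
    have h3 := mul_le_mul_of_nonneg_right hbd hBpos.le
    linarith
  have hAc : ((A \ A1).card : ℝ) ≤ H := by
    have h1 := card_le_card (sdiff_subset : A \ A1 ⊆ A)
    rw [hA, Nat.card_Icc, Nat.add_sub_cancel, ← hA] at h1
    exact_mod_cast h1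
  have hsum : c * ((1 / Vz w * ∑ d ∈ A \ A1, (cmpT w B {d} : ℝ) - ε * (N / Real.log N) * H) / Real.log N) ≤
      ((∑ d ∈ A, piT' B {d} N : ℕ) : ℝ) := by
    push_cast
    calc c * ((1 / Vz w * ∑ d ∈ A \ A1, (cmpT w B {d} : ℝ) - ε * (N / Real.log N) * H) / Real.log N)
        ≤ c * ((1 / Vz w * ∑ d ∈ A \ A1, (cmpT w B {d} : ℝ) -
            ε * (N / Real.log N) * (A \ A1).card) / Real.log N) := by
          refine mul_le_mul_of_nonneg_left (div_le_div_of_nonneg_right ?_ hL0.le) hc.le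
          have := mul_le_mul_of_nonneg_left hAc (by positivity : 0 ≤ ε * (N / Real.log N))
          linarith
      _ = ∑ d ∈ A \ A1, c * ((1 / Vz w * cmpT w B {d} - ε * (N / Real.log N)) / Real.log N) := by
          rw [← mul_sum, ← sum_div, sum_sub_distrib, ← mul_sum, sum_const, nsmul_eq_mul]
          ring
      _ ≤ ∑ d ∈ A \ A1, (piT' B {d} N : ℝ) := by
          refine sum_le_sum fun d hd => ?_
          rw [Finset.mem_sdiff] at hd
          by_contra hc1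
          exact hd.2 (by rw [hA1, mem_filter]; exact ⟨hd.1, not_le.1 hc1⟩)
      _ ≤ ∑ d ∈ A, (piT' B {d} N : ℝ) :=
          sum_le_sum_of_subset_of_nonneg sdiff_subset fun _ _ _ => Nat.cast_nonneg _
  have hle : ((∑ d ∈ A, piT' B {d} N : ℕ) : ℝ) ≤ ∑ n ∈ B, (cP2 N n H : ℝ) := by
    exact_mod_cast sum_piT_le B A N H (by rw [hA])
  have hlt : ∑ n ∈ B, (cP2 N n H : ℝ) < ∑ _n ∈ B, c / 4 * (H / Real.log N) := sum_lt_sum_of_nonempty hBne hbad
  rw [sum_const, nsmul_eq_mul] at hlt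
  have hmain : (B.card : ℝ) * H / 4 ≤ 1 / Vz w * ∑ d ∈ A \ A1, (cmpT w B {d} : ℝ) - ε * (N / Real.log N) * H := by
    have h1 : (B.card : ℝ) * (1 / 2 * Vz w * H) - ε * (Vz w * H) * B.card ≤ ∑ d ∈ A \ A1, (cmpT w B {d} : ℝ) := by
      linarith
    have h2 := mul_le_mul_of_nonneg_left h1 (by positivity : 0 ≤ 1 / Vz w)
    have h3 : 1 / Vz w * ((B.card : ℝ) * (1 / 2 * Vz w * H) - ε * (Vz w * H) * B.card) =
        (1 / 2 - ε) * (B.card * H) := by
      field_simp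
    rw [h3] at h2
    have h4 : ε * (N / Real.log N) * H ≤ 1 / 8 * (B.card * H) := by
      have h5 : ε * (N / Real.log N) ≤ 1 / 8 * B.card := by
        have h6 := mul_le_mul_of_nonneg_right hε2 (by positivity : 0 ≤ N / Real.log N)
        linarith
      have h7 := mul_le_mul_of_nonneg_right h5 hH0.le
      linarith
    have h8 : 0 ≤ (B.card : ℝ) * H := by positivity
    nlinarith
  have hfin : (B.card : ℝ) * (c / 4 * (H / Real.log N)) ≤
      c * ((1 / Vz w * ∑ d ∈ A \ A1, (cmpT w B {d} : ℝ) - ε * (N / Real.log N) * H) / Real.log N) := by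
    calc (B.card : ℝ) * (c / 4 * (H / Real.log N)) = c * ((B.card : ℝ) * H / 4 / Real.log N) := by ring
      _ ≤ _ := mul_le_mul_of_nonneg_left (div_le_div_of_nonneg_right hmain hL0.le) hc.le
  linarith

end Pool.Agent.J4.H38.BP
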