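import Mathlib
import Pool.Agent.J4.H38.BP.Pts2
import Pool.Agent.J4.H38.GD.Fin

/-! Project BP: almost primes in very short intervals starting at the integers `N - p`, with an absolute constant. -/

set_option autoImplicit false

namespace Pool.Agent.J4.H38.BP

open Finset Filter
open Pool.Agent.Y822
open Pool.Agent.J4.H38.SR
open Pool.Agent.J4.H38.DV
open Pool.Agent.J4.H38.GD
open Pool.Agent.H373R2.T7 (pz Vz mem_pz)

/-- double counting -/
lemma sum_piD_le {B : Finset ℕ} {N : ℕ} (hB : B ⊆ Icc 1 N) (A : Finset ℕ) (H : ℕ) (hA : A ⊆ Icc 1 H) :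
    ∑ d ∈ A, piD B {d} N ≤ ∑ n ∈ B, cP2 N (N - n) H := by
  classical
  have h1 : ∑ d ∈ A, piD B {d} N = ∑ n ∈ (Icc 1 N).filter (fun n => N - n ∈ B),
      (A.filter (fun d : ℕ => (n + d).primeFactorsList.length ≤ 2 ∧
      ∀ q ∈ (n + d).primeFactors, (N : ℝ) ^ (1 / 7 : ℝ) ≤ (q : ℝ))).card := by
    unfold piD
    simp only [mem_singleton, forall_eq]
    have h2 : ∀ d ∈ A, ((Icc 1 N).filter (fun n => N - n ∈ B ∧ ((n + d).primeFactorsList.length ≤ 2 ∧
        ∀ q ∈ (n + d).primeFactors, (N : ℝ) ^ (1 / 7 : ℝ) ≤ (q : ℝ)))).card =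
        (((Icc 1 N).filter (fun n => N - n ∈ B)).filter (fun n => (n + d).primeFactorsList.length ≤ 2 ∧
        ∀ q ∈ (n + d).primeFactors, (N : ℝ) ^ (1 / 7 : ℝ) ≤ (q : ℝ))).card := fun d _ => by
      rw [filter_filter]
    rw [sum_congr rfl h2]
    simp only [card_filter]
    rw [sum_comm]
  rw [h1]
  have h3 : ∑ n ∈ (Icc 1 N).filter (fun n => N - n ∈ B), (A.filter (fun d : ℕ => (n + d).primeFactorsList.length ≤ 2 ∧
      ∀ q ∈ (n + d).primeFactors, (N : ℝ) ^ (1 / 7 : ℝ) ≤ (q : ℝ))).card ≤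
      ∑ n ∈ (Icc 1 N).filter (fun n => N - n ∈ B), cP2 N n H := by
    refine sum_le_sum fun n _ => ?_
    unfold cP2
    refine card_le_card_of_injOn (fun d => n + d) (fun d hd => ?_) fun a _ b _ h => by simpa using h
    rw [mem_coe, mem_filter] at hd
    rw [mem_coe, mem_filter, mem_Ioc]
    have h2 := mem_Icc.1 (hA hd.1)
    exact ⟨⟨Nat.lt_add_of_pos_right h2.1, Nat.add_le_add_left h2.2 n⟩, hd.2⟩
  refine h3.trans ?_
  have h4 : ((Icc 1 N).filter (fun n => N - n ∈ B)) ⊆ B.image (fun p => N - p) := by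
    intro n hn
    rw [mem_filter, mem_Icc] at hn
    exact mem_image.2 ⟨N - n, hn.2, by omega⟩
  refine (sum_le_sum_of_subset h4).trans ?_
  rw [sum_image]
  intro a ha b hb h
  have h5 := mem_Icc.1 (hB ha)
  have h6 := mem_Icc.1 (hB hb)
  simp only at h
  omega

/-- the shifts which are prime to `W` -/
lemma sum_cmpG {B : Finset ℕ} {w N H : ℕ} {b : ℝ} (hAB : ∀ n : ℕ, b ≤ (AB w n H).card) :
    (B.card : ℝ) * b ≤ ((∑ d ∈ Icc 1 H, cmp w N B {d} : ℕ) : ℝ) := by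
  classical
  have h1 : ∑ d ∈ Icc 1 H, cmp w N B {d} = ∑ n ∈ B, (AB w (N - n) H).card := by
    unfold Pool.Agent.J4.H38.GD.cmp AB
    simp only [mem_singleton, forall_eq, card_filter]
    rw [sum_comm]
    refine sum_congr rfl fun n _ => sum_congr rfl fun d _ => ?_
    congr 1
    apply propext
    unfold Ro
    constructor
    · intro h p hp
      rw [add_comm]
      exact h p (mem_pz.1 hp).2 (mem_pz.1 hp).1
    · intro h p hp hpw
      rw [add_comm]
      exact h p (mem_pz.2 ⟨hpw, hp⟩)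
  rw [h1]
  push_cast
  calc (B.card : ℝ) * b = ∑ _n ∈ B, b := by rw [sum_const, nsmul_eq_mul]
    _ ≤ _ := sum_le_sum fun n _ => hAB (N - n)

/-- few primes `p` with few almost primes after `N - p`, absolute constant -/
theorem ptsPG : ∃ c : ℝ, 0 < c ∧ ∀ δ : ℝ, 0 < δ → ∃ Λ : ℝ, 0 < Λ ∧
    ∀ᶠ N : ℕ in atTop, ∀ H : ℕ, Λ * Real.log N ≤ H → H ≤ N →
    ∀ B ⊆ (Icc 1 N).filter Nat.Prime, δ * (N / Real.log N) ≤ B.card →
    ¬ ∀ n ∈ B, (cP2 N (N - n) H : ℝ) < c * (H / Real.log N) := by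
  classical
  obtain ⟨c, hc, hany⟩ := anyG
  refine ⟨c / 4, by positivity, fun δ hδ => ?_⟩
  obtain ⟨ε, hε⟩ : ∃ ε : ℝ, ε = min (1 / 8) (δ / 8) := ⟨_, rfl⟩
  have hε0 : 0 < ε := by rw [hε]; exact lt_min (by norm_num) (by positivity)
  have hε1 : ε ≤ 1 / 8 := by rw [hε]; exact min_le_left _ _
  have hε2 : ε ≤ δ / 8 := by rw [hε]; exact min_le_right _ _
  obtain ⟨w, hw, Λ, hΛ, h⟩ := hany 0 ε hε0
  obtain ⟨H₀, hAB⟩ := AB_card w
  have hv : 0 < Vz w := Vz_pos' w
  refine ⟨max Λ (max H₀ 1), lt_max_of_lt_left hΛ, ?_⟩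
  filter_upwards [h, eventually_ge_atTop 3] with N h hN3
  intro H hH hHN B hB hBc hbad
  have hL1 : 1 ≤ Real.log N := by
    rw [Real.le_log_iff_exp_le (by positivity)]
    have : (3 : ℝ) ≤ N := by exact_mod_cast hN3
    linarith [Real.exp_one_lt_d9]
  have hL0 : 0 < Real.log N := by linarith
  have hHΛ : Λ * Real.log N ≤ H := (mul_le_mul_of_nonneg_right (le_max_left _ _) hL0.le).trans hH
  have hm : max (H₀ : ℝ) 1 ≤ H := by
    have h1 : max (H₀ : ℝ) 1 * Real.log N ≤ H := (mul_le_mul_of_nonneg_right (le_max_right _ _) hL0.le).trans hH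
    have h2 : (0 : ℝ) < max (H₀ : ℝ) 1 := lt_max_of_lt_right one_pos
    nlinarith
  have hHH : H₀ ≤ H := by exact_mod_cast (le_max_left (H₀ : ℝ) 1).trans hm
  have hH0 : (0 : ℝ) < H := lt_of_lt_of_le (lt_max_of_lt_right one_pos) hm
  have hN0 : (0 : ℝ) < N := by exact_mod_cast (by omega : 0 < N)
  have hBpos : (0 : ℝ) < B.card := lt_of_lt_of_le (by positivity) hBc
  have hBne : B.Nonempty := by
    rw [← card_pos]
    exact_mod_cast hBpos
  have hBI : B ⊆ Icc 1 N := hB.trans (filter_subset _ _)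
  obtain ⟨A, hA⟩ : ∃ A : Finset ℕ, A = Icc 1 H := ⟨_, rfl⟩
  obtain ⟨A1, hA1⟩ : ∃ A1 : Finset ℕ, A1 = A.filter (fun d => (piD B {d} N : ℝ) <
    c * ((1 / Vz w * cmp w N B {d} - ε * (N / Real.log N)) / Real.log N)) := ⟨_, rfl⟩
  have hbd := h H hHΛ hHN B hB (A1.image (fun d => ({d} : Finset ℕ))) fun D hD => by
    obtain ⟨d, hd, rfl⟩ := mem_image.1 hD
    rw [hA1, mem_filter] at hd
    refine ⟨?_, ?_⟩
    · rw [mem_powersetCard, singleton_subset_iff, card_singleton, ← hA]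
      exact ⟨hd.1, rfl⟩
    · rw [zero_add, pow_one, pow_one, pow_one]
      exact hd.2
  rw [card_image_of_injective _ (fun a b h => singleton_injective h), zero_add, pow_one] at hbd
  -- the shifts prime to `W`
  have hc1 : (B.card : ℝ) * (1 / 2 * Vz w * H) ≤ ((∑ d ∈ A, cmp w N B {d} : ℕ) : ℝ) := by
    rw [hA]
    exact sum_cmpG fun n => (hAB H n hHH).1
  have hcl : ∀ d, (cmp w N B {d} : ℝ) ≤ B.card := by
    intro d
    unfold Pool.Agent.J4.H38.GD.cmp
    exact_mod_cast card_filter_le _ _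
  have hc2 : ((∑ d ∈ A, cmp w N B {d} : ℕ) : ℝ) ≤ ∑ d ∈ A \ A1, (cmp w N B {d} : ℝ) + ε * (Vz w * H) * B.card := by
    push_cast
    have h1 : A1 ⊆ A := by rw [hA1]; exact filter_subset _ _
    rw [← sum_sdiff h1]
    have h2 : ∑ d ∈ A1, (cmp w N B {d} : ℝ) ≤ ∑ _d ∈ A1, (B.card : ℝ) := sum_le_sum fun d _ => hcl d
    rw [sum_const, nsmul_eq_mul] at h2
    have h3 := mul_le_mul_of_nonneg_right hbd hBpos.le
    linarith
  have hAc : ((A \ A1).card : ℝ) ≤ H := by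
    have h1 := card_le_card (sdiff_subset : A \ A1 ⊆ A)
    rw [hA, Nat.card_Icc, Nat.add_sub_cancel, ← hA] at h1
    exact_mod_cast h1
  have hsum : c * ((1 / Vz w * ∑ d ∈ A \ A1, (cmp w N B {d} : ℝ) - ε * (N / Real.log N) * H) / Real.log N) ≤
      ((∑ d ∈ A, piD B {d} N : ℕ) : ℝ) := by
    push_cast
    calc c * ((1 / Vz w * ∑ d ∈ A \ A1, (cmp w N B {d} : ℝ) - ε * (N / Real.log N) * H) / Real.log N)
        ≤ c * ((1 / Vz w * ∑ d ∈ A \ A1, (cmp w N B {d} : ℝ) -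
            ε * (N / Real.log N) * (A \ A1).card) / Real.log N) := by
          refine mul_le_mul_of_nonneg_left (div_le_div_of_nonneg_right ?_ hL0.le) hc.le
          have := mul_le_mul_of_nonneg_left hAc (by positivity : 0 ≤ ε * (N / Real.log N))
          linarith
      _ = ∑ d ∈ A \ A1, c * ((1 / Vz w * cmp w N B {d} - ε * (N / Real.log N)) / Real.log N) := by
          rw [← mul_sum, ← sum_div, sum_sub_distrib, ← mul_sum, sum_const, nsmul_eq_mul]
          ring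
      _ ≤ ∑ d ∈ A \ A1, (piD B {d} N : ℝ) := by
          refine sum_le_sum fun d hd => ?_
          rw [Finset.mem_sdiff] at hd
          by_contra hc1
          exact hd.2 (by rw [hA1, mem_filter]; exact ⟨hd.1, not_le.1 hc1⟩)
      _ ≤ ∑ d ∈ A, (piD B {d} N : ℝ) :=
          sum_le_sum_of_subset_of_nonneg sdiff_subset fun _ _ _ => Nat.cast_nonneg _
  have hle : ((∑ d ∈ A, piD B {d} N : ℕ) : ℝ) ≤ ∑ n ∈ B, (cP2 N (N - n) H : ℝ) := by
    exact_mod_cast sum_piD_le hBI A H (by rw [hA])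
  have hlt : ∑ n ∈ B, (cP2 N (N - n) H : ℝ) < ∑ _n ∈ B, c / 4 * (H / Real.log N) := sum_lt_sum_of_nonempty hBne hbad
  rw [sum_const, nsmul_eq_mul] at hlt
  have hmain : (B.card : ℝ) * H / 4 ≤ 1 / Vz w * ∑ d ∈ A \ A1, (cmp w N B {d} : ℝ) - ε * (N / Real.log N) * H := by
    have h1 : (B.card : ℝ) * (1 / 2 * Vz w * H) - ε * (Vz w * H) * B.card ≤ ∑ d ∈ A \ A1, (cmp w N B {d} : ℝ) := by
      linarith
    have h2 := mul_le_mul_of_nonneg_left h1 (by positivity : 0 ≤ 1 / Vz w)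
    have h3 : 1 / Vz w * ((B.card : ℝ) * (1 / 2 * Vz w * H) - ε * (Vz w * H) * B.card) =
        (1 / 2 - ε) * (B.card * H) := by
      field_simp
    rw [h3] at h2
    have h4 : ε * (N / Real.log N) * H ≤ 1 / 8 * (B.card * H) := by
      have h5 : ε * (N / Real.log N) ≤ 1 / 8 * B.card := by
        have h6 := mul_le_mul_of_nonneg_right hε2 (by positivity : 0 ≤ N / Real.log N)
        linarith
      have h7 := mul_le_mul_of_nonneg_right h5 hH0.le
      linarith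
    have h8 : 0 ≤ (B.card : ℝ) * H := by positivity
    nlinarith
  have hfin : (B.card : ℝ) * (c / 4 * (H / Real.log N)) ≤
      c * ((1 / Vz w * ∑ d ∈ A \ A1, (cmp w N B {d} : ℝ) - ε * (N / Real.log N) * H) / Real.log N) := by
    calc (B.card : ℝ) * (c / 4 * (H / Real.log N)) = c * ((B.card : ℝ) * H / 4 / Real.log N) := by ring
      _ ≤ _ := mul_le_mul_of_nonneg_left (div_le_div_of_nonneg_right hmain hL0.le) hc.le
  linarith

end Pool.Agent.J4.H38.BP
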